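import Mathlib
import Pool.Agent.CycE4.Hilb

/-!
# Cyclotomic numerical semigroups of embedding dimension four are complete intersections

This is Q1 of MP_bce407_al (in exactly the form of the frozen statement S02897) in embedding
dimension `e = 4`.
-/

set_option autoImplicit false

namespace Pool.Agent.Results.MP_bce407_al.EmbeddingDimensionFour

open Pool.Agent.CycE4

/-- For every numerical semigroup `S` with exactly four minimal generators
`g 0 < g 1 < g 2 < g 3` whose semigroup polynomial is a product of cyclotomic polynomials, the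
kernel of `x_i ↦ t ^ (g i)` over `ℚ` is generated by at most three polynomials. -/
theorem result :
    ∀ (S : AddSubmonoid ℕ) (hS : ((S : Set ℕ)ᶜ).Finite) (g : Fin 4 → ℕ),
      StrictMono g →
      Set.range g = {x : ℕ | x ∈ S ∧ x ≠ 0 ∧ ∀ a ∈ S, ∀ b ∈ S, a + b = x → a = 0 ∨ b = 0} →
      (∃ m : Multiset ℕ,
        (1 - (1 - Polynomial.X) * ∑ n ∈ hS.toFinset, Polynomial.X ^ n : Polynomial ℤ)
          = (m.map (fun k => Polynomial.cyclotomic k ℤ)).prod) →
      ∃ s : Finset (MvPolynomial (Fin 4) ℚ), s.card ≤ 3 ∧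
        Ideal.span (s : Set (MvPolynomial (Fin 4) ℚ))
          = RingHom.ker (MvPolynomial.aeval (R := ℚ)
              (fun i : Fin 4 => (Polynomial.X : Polynomial ℚ) ^ g i)) := by
  intro S hS g hmono hg hcyc
  obtain ⟨M, hM⟩ := hcyc
  apply ideal_of_CI
  by_contra hCI
  obtain ⟨G, _, hG, hsym⟩ := sym_of_cyc S hS (gaps_nonempty hS hmono hg) M hM
  obtain ⟨c, hdat⟩ := dat_of hg hG hsym
  obtain ⟨τ, _, c1, X, Y, R, s, t, Z, hPf, hZR, hsg⟩ := struct hdat hCI
  have hX : 0 ≤ X := by have := hPf.C2.pos; omega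
  have hY : 0 ≤ Y := by have := hPf.C3.pos; omega
  have hR : 0 ≤ R := by have := hPf.C4.pos; omega
  have hs : 0 ≤ s := by have := hPf.s1; omega
  have ht : 0 ≤ t := by have := hPf.t1; omega
  have hZ : 0 ≤ Z := by have := hPf.Z1; omega
  lift X to ℕ using hX
  lift Y to ℕ using hY
  lift R to ℕ using hR
  lift s to ℕ using hs
  lift t to ℕ using ht
  lift Z to ℕ using hZ
  exact pf_false hS hPf (by exact_mod_cast hZR) hsg hM

end Pool.Agent.Results.MP_bce407_al.EmbeddingDimensionFour
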