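import Mathlib
import Pool.Agent.LibCov74.N5

/-!
# Cyclotomic numerical semigroups whose product formula has at most seven denominators

A partial answer to Q1 of MP_bce407_al.
-/

set_option autoImplicit false

namespace Pool.Agent.Results.MP_bce407_al.SevenDenominators

/-- Let `S` be a numerical semigroup with minimal generators `g 0 < … < g (e-1)` and suppose that
its semigroup polynomial `P_S` satisfies `P_S ∏_{i≤n} (1 - X^{a i}) = (1 - X) ∏_{j<n} (1 - X^{b j})`
for some positive integers `a 0, …, a n` and `b 0, …, b (n-1)` with `n ≤ 6`. Then the kernel of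
`x_i ↦ t ^ (g i)` over `ℚ` is generated by at most `e - 1` polynomials. -/
theorem result :
    ∀ (S : AddSubmonoid ℕ) (hS : ((S : Set ℕ)ᶜ).Finite) (e : ℕ) (g : Fin e → ℕ),
      StrictMono g →
      Set.range g = {x : ℕ | x ∈ S ∧ x ≠ 0 ∧ ∀ a ∈ S, ∀ b ∈ S, a + b = x → a = 0 ∨ b = 0} →
      (∃ (n : ℕ) (a : Fin (n + 1) → ℕ) (b : Fin n → ℕ), n ≤ 6 ∧ (∀ i, 0 < a i) ∧
        (∀ j, 0 < b j) ∧
        (1 - (1 - Polynomial.X) * ∑ n ∈ hS.toFinset, Polynomial.X ^ n : Polynomial ℤ) *
            ∏ i, (1 - Polynomial.X ^ a i) =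
          (1 - Polynomial.X) * ∏ j, (1 - Polynomial.X ^ b j)) →
      ∃ s : Finset (MvPolynomial (Fin e) ℚ), s.card ≤ e - 1 ∧
        Ideal.span (s : Set (MvPolynomial (Fin e) ℚ))
          = RingHom.ker (MvPolynomial.aeval (R := ℚ)
              (fun i : Fin e => (Polynomial.X : Polynomial ℚ) ^ g i)) := by
  intro S hS e g hmono hg hf
  obtain ⟨n, a, b, hn, ha, hb, h⟩ := hf
  exact Pool.Agent.LibCov74.result7 S hS e g hmono hg n hn a b ha hb h

end Pool.Agent.Results.MP_bce407_al.SevenDenominators
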