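import Mathlib
import Pool.Agent.LibTP76.Z

/-!
# Cyclotomic numerical semigroups whose zeros have orders with at most two prime factors
-/

set_option autoImplicit false

namespace Pool.Agent.Results.MP_bce407_al.TwoPrimeZeros

open Pool.Agent.LibTP76

/-- Every numerical semigroup (of any embedding dimension) whose semigroup polynomial is a product
of cyclotomic polynomials `Φ_k` with every `k` having at most two prime factors is a complete
intersection. -/
theorem result :
    ∀ (S : AddSubmonoid ℕ) (hS : ((S : Set ℕ)ᶜ).Finite) (e : ℕ) (g : Fin e → ℕ),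
      StrictMono g →
      Set.range g = {x : ℕ | x ∈ S ∧ x ≠ 0 ∧ ∀ a ∈ S, ∀ b ∈ S, a + b = x → a = 0 ∨ b = 0} →
      (∃ m : Multiset ℕ, (∀ k ∈ m, k.primeFactors.card ≤ 2) ∧
        (1 - (1 - Polynomial.X) * ∑ n ∈ hS.toFinset, Polynomial.X ^ n : Polynomial ℤ)
          = (m.map (fun k => Polynomial.cyclotomic k ℤ)).prod) →
      ∃ s : Finset (MvPolynomial (Fin e) ℚ), s.card ≤ e - 1 ∧
        Ideal.span (s : Set (MvPolynomial (Fin e) ℚ))
          = RingHom.ker (MvPolynomial.aeval (R := ℚ)
              (fun i : Fin e => (Polynomial.X : Polynomial ℚ) ^ g i)) := by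
  intro S hS e g hmono hg hcyc
  obtain ⟨m, h2, hm⟩ := hcyc
  exact ideal_of_ci S (main_ci m.card S hS m rfl hm h2) e g hmono hg

end Pool.Agent.Results.MP_bce407_al.TwoPrimeZeros
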