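import Mathlib
import Pool.Agent.LibCov74.M5

/-!
# Cyclotomic numerical semigroups without a violator next to a set with few labels

A partial answer to Q1 of MP_bce407_al, in every embedding dimension.
-/

set_option autoImplicit false

namespace Pool.Agent.Results.MP_bce407_al.ViolatorBound

/-- Let `S` be a numerical semigroup with minimal generators `g 0 < … < g (e-1)` and
`P_S ∏_{i≤n} (1 - X^{a i}) = (1 - X) ∏_{j<n} (1 - X^{b j})` for positive integers `a i`, `b j` with
`b j ≠ a i`. Suppose that whenever `Z` is a nonempty proper set of indices `i` and more than `Z.card`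
of the `b j` are in no `a i + S` with `i ∉ Z`, then for every nonempty proper set `V` contained in, or
containing, the complement of `Z` at least `V.card - 2` of the `b j` are sums of numbers `a i` with
`i ∈ V`. Then the kernel of `x_i ↦ t ^ (g i)` over `ℚ` is generated by at most `e - 1`
polynomials. -/
theorem result :
    ∀ (S : AddSubmonoid ℕ) (hS : ((S : Set ℕ)ᶜ).Finite) (e : ℕ) (g : Fin e → ℕ),
      StrictMono g →
      Set.range g = {x : ℕ | x ∈ S ∧ x ≠ 0 ∧ ∀ a ∈ S, ∀ b ∈ S, a + b = x → a = 0 ∨ b = 0} →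
      (∃ (n : ℕ) (a : Fin (n + 1) → ℕ) (b : Fin n → ℕ), (∀ i, 0 < a i) ∧ (∀ j, 0 < b j) ∧
        (∀ i j, b j ≠ a i) ∧
        (1 - (1 - Polynomial.X) * ∑ n ∈ hS.toFinset, Polynomial.X ^ n : Polynomial ℤ) *
            ∏ i, (1 - Polynomial.X ^ a i) =
          (1 - Polynomial.X) * ∏ j, (1 - Polynomial.X ^ b j) ∧
        ∀ (Z : Finset (Fin (n + 1))) (J : Finset (Fin n)), Z.Nonempty → Z ≠ Finset.univ →
          (∀ j ∈ J, ∀ i, i ∉ Z → ∀ s ∈ S, b j ≠ s + a i) → Z.card < J.card →
          ∀ V : Finset (Fin (n + 1)), V.Nonempty → V ≠ Finset.univ → (V ⊆ Zᶜ ∨ Zᶜ ⊆ V) →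
            ∃ K : Finset (Fin n), V.card ≤ K.card + 2 ∧
              ∀ j ∈ K, b j ∈ AddSubmonoid.closure (a '' (V : Set (Fin (n + 1))))) →
      ∃ s : Finset (MvPolynomial (Fin e) ℚ), s.card ≤ e - 1 ∧
        Ideal.span (s : Set (MvPolynomial (Fin e) ℚ))
          = RingHom.ker (MvPolynomial.aeval (R := ℚ)
              (fun i : Fin e => (Polynomial.X : Polynomial ℚ) ^ g i)) := by
  intro S hS e g hmono hg hf
  obtain ⟨n, a, b, ha, hb, hc, h, hdef⟩ := hf
  exact Pool.Agent.LibCov74.result_delta S hS e g hmono hg n a b ha hb hc h hdef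

end Pool.Agent.Results.MP_bce407_al.ViolatorBound
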